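import Mathlib
import Pool.Agent.R175.TriGeo
import Pool.Agent.R175.HexTile

/-!
# For every `t ≥ 1` there is a `t`-class `12t`-component tiling

Start with the tiling of the plane by the chambers of the group `p6m`, cut the fundamental chamber into `t`
convex pieces and move the `i`-th piece by a lattice vector `λ i` which lies in the open Weyl chamber; the tile
is the union of the `12 t` images of these pieces under the point group `D₆`.
-/

set_option autoImplicit false

namespace Pool.Agent.Results.MP_2d2d9d_co.AllClasses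

open Set Pool.Agent.R175.TriGeo Pool.Agent.R175.HexTile

/-- A tiling: a countable family of closed sets covering the plane, with pairwise disjoint interiors. -/
structure IsTiling (F : Set (Set ℂ)) : Prop where
  countable : F.Countable
  closed : ∀ T ∈ F, IsClosed T
  cover : ⋃₀ F = univ
  disjoint : ∀ T ∈ F, ∀ T' ∈ F, T ≠ T' → Disjoint (interior T) (interior T')

/-- The isometry `g` maps the family onto itself. -/
def IsSymmetry (F : Set (Set ℂ)) (g : ℂ ≃ᵢ ℂ) : Prop := (fun T => g '' T) '' F = F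

/-- The symmetry group acts transitively on the tiles. -/
def Isohedral (F : Set (Set ℂ)) : Prop := ∀ T ∈ F, ∀ T' ∈ F, ∃ g, IsSymmetry F g ∧ g '' T = T'

/-- A closed topological disk. -/
def IsDisk (C : Set ℂ) : Prop := IsClosed C ∧ Nonempty (C ≃ₜ Metric.closedBall (0 : ℂ) 1)

/-- `T` is the union of the `k` pairwise disjoint closed topological disks `C j`, its components. -/
structure HasComponents (T : Set ℂ) {k : ℕ} (C : Fin k → Set ℂ) : Prop where
  disk : ∀ j, IsDisk (C j)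
  disjoint : ∀ j l, j ≠ l → Disjoint (C j) (C l)
  union : T = ⋃ j, C j

/-- The components `C j`, `C l` of `T` are equivalent: a symmetry of the tiling maps `T` onto itself and `C j`
onto `C l`. -/
def Equivalent (F : Set (Set ℂ)) (T : Set ℂ) (C C' : Set ℂ) : Prop :=
  ∃ g, IsSymmetry F g ∧ g '' T = T ∧ g '' C = C'

/-- A `t`-class `k`-component tiling. -/
def IsClassTiling (F : Set (Set ℂ)) (t k : ℕ) : Prop :=
  IsTiling F ∧ Isohedral F ∧ ∀ T ∈ F, ∃ C : Fin k → Set ℂ, HasComponents T C ∧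
    ∃ cls : Fin k → Fin t, Function.Surjective cls ∧ ∀ j l, cls j = cls l ↔ Equivalent F T (C j) (C l)

/-! ### Coordinates -/

/-- First coordinate with respect to the basis `1`, `ζ`. -/
noncomputable def A (z : ℂ) : ℝ := X z - Y z
/-- Second coordinate with respect to the basis `1`, `ζ`. -/
noncomputable def B (z : ℂ) : ℝ := X z + 2 * Y z

theorem A_add (z w : ℂ) : A (z + w) = A z + A w := by unfold A; rw [X_add, Y_add]; ring
theorem B_add (z w : ℂ) : B (z + w) = B z + B w := by unfold B; rw [X_add, Y_add]; ring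
theorem A_sub (z w : ℂ) : A (z - w) = A z - A w := by unfold A; rw [X_sub, Y_sub]; ring
theorem B_sub (z w : ℂ) : B (z - w) = B z - B w := by unfold B; rw [X_sub, Y_sub]; ring
theorem A_smul (c : ℝ) (z : ℂ) : A (c • z) = c * A z := by unfold A; rw [X_smul, Y_smul]; ring
theorem B_smul (c : ℝ) (z : ℂ) : B (c • z) = c * B z := by unfold B; rw [X_smul, Y_smul]; ring
theorem A_pt (p : ℤ × ℤ) : A (pt p) = ((p.1 - p.2 : ℤ) : ℝ) := by unfold A; rw [X_pt, Y_pt]; push_cast; ring
theorem B_pt (p : ℤ × ℤ) : B (pt p) = ((p.1 + 2 * p.2 : ℤ) : ℝ) := by unfold B; rw [X_pt, Y_pt]; push_cast; ring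

/-- The point with given coordinates. -/
noncomputable def of (a b : ℝ) : ℂ := a • (1 : ℂ) + b • ζ

theorem A_of (a b : ℝ) : A (of a b) = a := by
  unfold of; rw [A_add, A_smul, A_smul]; unfold A; rw [X_one, Y_one, X_zeta, Y_zeta]; ring
theorem B_of (a b : ℝ) : B (of a b) = b := by
  unfold of; rw [B_add, B_smul, B_smul]; unfold B; rw [X_one, Y_one, X_zeta, Y_zeta]; ring

theorem ext_AB {z w : ℂ} (h1 : A z = A w) (h2 : B z = B w) : z = w := by
  unfold A at h1
  unfold B at h2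
  exact ext_XY (by linarith) (by linarith)

theorem of_AB (z : ℂ) : of (A z) (B z) = z := ext_AB (A_of _ _) (B_of _ _)

theorem norm_sq_eq (z : ℂ) : ‖z‖ ^ 2 = A z ^ 2 + A z * B z + B z ^ 2 := by
  rw [← Complex.normSq_eq_norm_sq, Complex.normSq_apply]
  unfold A B X Y
  have := r3_sq
  have h3 : (z.re - r3 / 3 * z.im) ^ 2 + (z.re - r3 / 3 * z.im) * (2 * (r3 / 3) * z.im) +
      (2 * (r3 / 3) * z.im) ^ 2 = z.re * z.re + (r3 * r3) * z.im ^ 2 / 3 := by ring
  rw [this] at h3
  linear_combination -h3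

theorem norm_le {z : ℂ} (h1 : |A z| + |B z| ≤ 1) : ‖z‖ ≤ 1 := by
  have h := norm_sq_eq z
  have h2 : A z * B z ≤ |A z| * |B z| := by rw [← abs_mul]; exact le_abs_self _
  have h3 : A z ^ 2 = |A z| ^ 2 := (sq_abs _).symm
  have h4 : B z ^ 2 = |B z| ^ 2 := (sq_abs _).symm
  have h5 : 0 ≤ |A z| * |B z| := by positivity
  have h6 : (|A z| + |B z|) ^ 2 ≤ 1 := by
    have := abs_nonneg (A z); have := abs_nonneg (B z); nlinarith
  have h7 : ‖z‖ ^ 2 ≤ 1 := by nlinarith
  have h8 := norm_nonneg z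
  nlinarith

theorem A_cont : Continuous A := by
  unfold A X Y; fun_prop
theorem B_cont : Continuous B := by
  unfold B X Y; fun_prop

/-! ### The point group -/

/-- Matrix entries of the twelve elements of the point group. -/
def ma : Fin 12 → ℤ := ![1, 0, -1, -1, 0, 1, 1, 0, -1, -1, 0, 1]
/-- Matrix entries of the twelve elements of the point group. -/
def mb : Fin 12 → ℤ := ![0, -1, -1, 0, 1, 1, 1, 1, 0, -1, -1, 0]
/-- Matrix entries of the twelve elements of the point group. -/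
def mc : Fin 12 → ℤ := ![0, 1, 1, 0, -1, -1, 0, 1, 1, 0, -1, -1]
/-- Matrix entries of the twelve elements of the point group. -/
def md : Fin 12 → ℤ := ![1, 1, 0, -1, -1, 0, -1, 0, 1, 1, 0, -1]

theorem mul_table : ∀ m n : Fin 12, ∃ k : Fin 12, ma k = ma m * ma n + mb m * mc n ∧
    mb k = ma m * mb n + mb m * md n ∧ mc k = mc m * ma n + md m * mc n ∧
    md k = mc m * mb n + md m * md n := by decide

theorem inv_table : ∀ m : Fin 12, ∃ k : Fin 12, (ma k * ma m + mb k * mc m = 1 ∧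
    ma k * mb m + mb k * md m = 0 ∧ mc k * ma m + md k * mc m = 0 ∧ mc k * mb m + md k * md m = 1) ∧
    (ma m * ma k + mb m * mc k = 1 ∧
    ma m * mb k + mb m * md k = 0 ∧ mc m * ma k + md m * mc k = 0 ∧ mc m * mb k + md m * md k = 1) := by decide

theorem mat_inj : ∀ m n : Fin 12, ma m = ma n → mb m = mb n → mc m = mc n → md m = md n → m = n := by decide

theorem form_table : ∀ m : Fin 12, ma m * ma m + ma m * mc m + mc m * mc m = 1 ∧
    2 * (ma m * mb m) + ma m * md m + mb m * mc m + 2 * (mc m * md m) = 1 ∧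
    mb m * mb m + mb m * md m + md m * md m = 1 := by decide

theorem div_table : ∀ m : Fin 12, (mc m - ma m + (md m - mb m)) % 3 = 0 ∧
    (ma m - mc m + 2 * (md m - mb m)) % 3 = 0 := by decide

/-- The action of the point group. -/
noncomputable def act (m : Fin 12) (z : ℂ) : ℂ :=
  of (ma m * A z + mb m * B z) (mc m * A z + md m * B z)

theorem A_act (m : Fin 12) (z : ℂ) : A (act m z) = ma m * A z + mb m * B z := A_of _ _
theorem B_act (m : Fin 12) (z : ℂ) : B (act m z) = mc m * A z + md m * B z := B_of _ _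

theorem act_add (m : Fin 12) (z w : ℂ) : act m (z + w) = act m z + act m w := by
  apply ext_AB
  · rw [A_add, A_act, A_act, A_act, A_add, B_add]; ring
  · rw [B_add, B_act, B_act, B_act, A_add, B_add]; ring

theorem act_sub (m : Fin 12) (z w : ℂ) : act m (z - w) = act m z - act m w := by
  apply ext_AB
  · rw [A_sub, A_act, A_act, A_act, A_sub, B_sub]; ring
  · rw [B_sub, B_act, B_act, B_act, A_sub, B_sub]; ring

theorem act_norm (m : Fin 12) (z : ℂ) : ‖act m z‖ = ‖z‖ := by
  have h : ‖act m z‖ ^ 2 = ‖z‖ ^ 2 := by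
    rw [norm_sq_eq, norm_sq_eq, A_act, B_act]
    obtain ⟨h1, h2, h3⟩ := form_table m
    have g1 : (ma m : ℝ) * ma m + ma m * mc m + mc m * mc m = 1 := by exact_mod_cast h1
    have g2 : 2 * ((ma m : ℝ) * mb m) + ma m * md m + mb m * mc m + 2 * (mc m * md m) = 1 := by
      exact_mod_cast h2
    have g3 : (mb m : ℝ) * mb m + mb m * md m + md m * md m = 1 := by exact_mod_cast h3
    linear_combination A z ^ 2 * g1 + A z * B z * g2 + B z ^ 2 * g3
  have h1 := norm_nonneg (act m z)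
  have h2 := norm_nonneg z
  nlinarith [sq_nonneg (‖act m z‖ + ‖z‖), sq_nonneg (‖act m z‖ - ‖z‖)]

theorem act_comp (m n : Fin 12) : ∃ k, ∀ z, act m (act n z) = act k z := by
  obtain ⟨k, h1, h2, h3, h4⟩ := mul_table m n
  refine ⟨k, fun z => ?_⟩
  apply ext_AB
  · rw [A_act, A_act, A_act, B_act, h1, h2]; push_cast; ring
  · rw [B_act, B_act, A_act, B_act, h3, h4]; push_cast; ring

/-- The inverse. -/
noncomputable def inv (m : Fin 12) : Fin 12 := (inv_table m).choose

theorem act_inv (m : Fin 12) (z : ℂ) : act (inv m) (act m z) = z := by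
  obtain ⟨⟨h1, h2, h3, h4⟩, -⟩ := (inv_table m).choose_spec
  change ma (inv m) * ma m + mb (inv m) * mc m = 1 at h1
  change ma (inv m) * mb m + mb (inv m) * md m = 0 at h2
  change mc (inv m) * ma m + md (inv m) * mc m = 0 at h3
  change mc (inv m) * mb m + md (inv m) * md m = 1 at h4
  have g1 : (ma (inv m) : ℝ) * ma m + mb (inv m) * mc m = 1 := by exact_mod_cast h1
  have g2 : (ma (inv m) : ℝ) * mb m + mb (inv m) * md m = 0 := by exact_mod_cast h2
  have g3 : (mc (inv m) : ℝ) * ma m + md (inv m) * mc m = 0 := by exact_mod_cast h3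
  have g4 : (mc (inv m) : ℝ) * mb m + md (inv m) * md m = 1 := by exact_mod_cast h4
  apply ext_AB
  · rw [A_act, A_act, B_act]
    linear_combination A z * g1 + B z * g2
  · rw [B_act, A_act, B_act]
    linear_combination A z * g3 + B z * g4

theorem act_inv' (m : Fin 12) (z : ℂ) : act m (act (inv m) z) = z := by
  obtain ⟨-, ⟨h1, h2, h3, h4⟩⟩ := (inv_table m).choose_spec
  change ma m * ma (inv m) + mb m * mc (inv m) = 1 at h1
  change ma m * mb (inv m) + mb m * md (inv m) = 0 at h2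
  change mc m * ma (inv m) + md m * mc (inv m) = 0 at h3
  change mc m * mb (inv m) + md m * md (inv m) = 1 at h4
  have g1 : (ma m : ℝ) * ma (inv m) + mb m * mc (inv m) = 1 := by exact_mod_cast h1
  have g2 : (ma m : ℝ) * mb (inv m) + mb m * md (inv m) = 0 := by exact_mod_cast h2
  have g3 : (mc m : ℝ) * ma (inv m) + md m * mc (inv m) = 0 := by exact_mod_cast h3
  have g4 : (mc m : ℝ) * mb (inv m) + md m * md (inv m) = 1 := by exact_mod_cast h4
  apply ext_AB
  · rw [A_act, A_act, B_act]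
    linear_combination A z * g1 + B z * g2
  · rw [B_act, A_act, B_act]
    linear_combination A z * g3 + B z * g4

/-- The point group as isometries. -/
noncomputable def actI (m : Fin 12) : ℂ ≃ᵢ ℂ :=
  IsometryEquiv.mk' (act m) (act (inv m)) (act_inv' m)
    (by
      apply Isometry.of_dist_eq
      intro z w
      rw [dist_eq_norm, dist_eq_norm, ← act_sub, act_norm])

theorem actI_apply (m : Fin 12) (z : ℂ) : actI m z = act m z := rfl

/-- The point group preserves the lattice. -/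
theorem act_pt (m : Fin 12) (p : ℤ × ℤ) : ∃ q, act m (pt p) = pt q := by
  obtain ⟨h1, h2⟩ := div_table m
  have h3 : ((mc m - ma m + (md m - mb m)) * p.1 + (ma m - mc m + 2 * (md m - mb m)) * p.2) % 3 = 0 := by
    obtain ⟨k1, hk1⟩ := Int.dvd_of_emod_eq_zero h1
    obtain ⟨k2, hk2⟩ := Int.dvd_of_emod_eq_zero h2
    rw [hk1, hk2]
    exact Int.emod_eq_zero_of_dvd ⟨k1 * p.1 + k2 * p.2, by ring⟩
  obtain ⟨y, hy⟩ := Int.dvd_of_emod_eq_zero h3
  refine ⟨(ma m * (p.1 - p.2) + mb m * (p.1 + 2 * p.2) + y, y), ?_⟩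
  have hy' : ((mc m : ℝ) - ma m + (md m - mb m)) * p.1 + (ma m - mc m + 2 * (md m - mb m)) * p.2 = 3 * y := by
    exact_mod_cast hy
  apply ext_AB
  · rw [A_act, A_pt, B_pt, A_pt]; push_cast; ring
  · rw [B_act, A_pt, B_pt, B_pt]; push_cast
    linear_combination hy'

theorem cone_id (m : Fin 12) {a b : ℝ} (h1 : 0 < b) (h2 : b < a) (h3 : 0 < mc m * a + md m * b)
    (h4 : mc m * a + md m * b < ma m * a + mb m * b) : m = 0 := by
  fin_cases m <;> simp [ma, mb, mc, md] at h3 h4 ⊢ <;> linarith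

/-- Two open chambers are disjoint. -/
theorem cone_unique {m n : Fin 12} {z w : ℂ} (hz1 : 0 < B z) (hz2 : B z < A z) (hw1 : 0 < B w) (hw2 : B w < A w)
    (h : act m z = act n w) : m = n ∧ z = w := by
  have h1 : z = act (inv m) (act n w) := by rw [← h, act_inv]
  obtain ⟨k, hk⟩ := act_comp (inv m) n
  rw [hk] at h1
  have h2 : k = 0 := by
    apply cone_id k hw1 hw2
    · rw [← B_act, ← h1]; exact hz1
    · rw [← B_act, ← A_act, ← h1]; exact hz2
  have h0 : ∀ u, act 0 u = u := by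
    intro u
    apply ext_AB
    · rw [A_act]; simp [ma, mb]
    · rw [B_act]; simp [mc, md]
  subst h2
  have h3 : ∀ u, act m u = act n u := by
    intro u
    have := hk (u)
    rw [h0] at this
    rw [← act_inv' m (act n u), this]
  refine ⟨?_, by rw [h1, h0]⟩
  have e1 := congrArg A (h3 1)
  have e2 := congrArg B (h3 1)
  have e3 := congrArg A (h3 ζ)
  have e4 := congrArg B (h3 ζ)
  have A1 : A 1 = 1 := by unfold A; rw [X_one, Y_one]; ring
  have B1 : B 1 = 0 := by unfold B; rw [X_one, Y_one]; ring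
  have Az : A ζ = 0 := by unfold A; rw [X_zeta, Y_zeta]; ring
  have Bz : B ζ = 1 := by unfold B; rw [X_zeta, Y_zeta]; ring
  rw [A_act, A_act, A1, B1] at e1
  rw [B_act, B_act, A1, B1] at e2
  rw [A_act, A_act, Az, Bz] at e3
  rw [B_act, B_act, Az, Bz] at e4
  simp only [mul_one, mul_zero, add_zero, zero_add] at e1 e2 e3 e4
  exact mat_inj m n (by exact_mod_cast e1) (by exact_mod_cast e3) (by exact_mod_cast e2) (by exact_mod_cast e4)

/-- The closed chambers cover the plane. -/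
theorem cone_cover (a b : ℝ) : ∃ m : Fin 12, 0 ≤ mc m * a + md m * b ∧
    mc m * a + md m * b ≤ ma m * a + mb m * b := by
  rcases le_total 0 a with ha | ha <;> rcases le_total 0 b with hb | hb
  · rcases le_total b a with h | h
    · exact ⟨0, by simp [mc, md]; linarith, by simp [ma, mb, mc, md]; linarith⟩
    · exact ⟨7, by simp [mc, md]; linarith, by simp [ma, mb, mc, md]; linarith⟩
  · rcases le_total 0 (a + b) with hc | hc
    · rcases le_total (a + b) (-b) with h | h
      · exact ⟨1, by simp [mc, md]; linarith, by simp [ma, mb, mc, md]; linarith⟩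
      · exact ⟨6, by simp [mc, md]; linarith, by simp [ma, mb, mc, md]; linarith⟩
    · rcases le_total a (-a - b) with h | h
      · exact ⟨2, by simp [mc, md]; linarith, by simp [ma, mb, mc, md]; linarith⟩
      · exact ⟨11, by simp [mc, md]; linarith, by simp [ma, mb, mc, md]; linarith⟩
  · rcases le_total 0 (a + b) with hc | hc
    · rcases le_total (-a) (a + b) with h | h
      · exact ⟨5, by simp [mc, md]; linarith, by simp [ma, mb, mc, md]; linarith⟩
      · exact ⟨8, by simp [mc, md]; linarith, by simp [ma, mb, mc, md]; linarith⟩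
    · rcases le_total (-a - b) b with h | h
      · exact ⟨4, by simp [mc, md]; linarith, by simp [ma, mb, mc, md]; linarith⟩
      · exact ⟨9, by simp [mc, md]; linarith, by simp [ma, mb, mc, md]; linarith⟩
  · rcases le_total (-b) (-a) with h | h
    · exact ⟨3, by simp [mc, md]; linarith, by simp [ma, mb, mc, md]; linarith⟩
    · exact ⟨10, by simp [mc, md]; linarith, by simp [ma, mb, mc, md]; linarith⟩

/-- The hexagon is invariant. -/
theorem hex_inv (m : Fin 12) {a b r : ℝ} (h1 : |a| < r) (h2 : |b| < r) (h3 : |a + b| < r) :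
    |(ma m * a + mb m * b)| < r ∧ |(mc m * a + md m * b)| < r ∧
      |(ma m * a + mb m * b) + (mc m * a + md m * b)| < r := by
  rw [abs_lt] at h1 h2 h3
  obtain ⟨h1, h1'⟩ := h1
  obtain ⟨h2, h2'⟩ := h2
  obtain ⟨h3, h3'⟩ := h3
  simp only [abs_lt]
  fin_cases m <;> simp [ma, mb, mc, md] <;> refine ⟨⟨?_, ?_⟩, ⟨?_, ?_⟩, ?_, ?_⟩ <;> linarith

/-! ### The pieces of the chamber -/

/-- The `i`-th of the `t` pieces of the fundamental chamber. -/
def D (t i : ℕ) : Set ℂ :=
  {z | 0 ≤ B z ∧ B z ≤ A z ∧ (i : ℝ) / t ≤ A z + B z ∧ A z + B z ≤ ((i : ℝ) + 1) / t}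

theorem D_closed (t i : ℕ) : IsClosed (D t i) := by
  have h1 := A_cont
  have h2 := B_cont
  apply IsClosed.inter (isClosed_le continuous_const h2)
  apply IsClosed.inter (isClosed_le h2 h1)
  exact IsClosed.inter (isClosed_le continuous_const (h1.add h2)) (isClosed_le (h1.add h2) continuous_const)

theorem D_convex (t i : ℕ) : Convex ℝ (D t i) := by
  rintro z ⟨h1, h2, h3, h4⟩ w ⟨k1, k2, k3, k4⟩ a b ha hb hab
  unfold D
  simp only [mem_ofPred_eq, A_add, B_add, A_smul, B_smul]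
  obtain rfl : b = 1 - a := by linarith
  refine ⟨by nlinarith, by nlinarith, by nlinarith, by nlinarith⟩

theorem D_norm {t i : ℕ} (ht : 0 < t) (hi : i < t) {z : ℂ} (hz : z ∈ D t i) : ‖z‖ ≤ 1 := by
  obtain ⟨h1, h2, h3, h4⟩ := hz
  have ht' : (0 : ℝ) < t := by exact_mod_cast ht
  have h5 : ((i : ℝ) + 1) / t ≤ 1 := by
    rw [div_le_one ht']
    exact_mod_cast hi
  apply norm_le
  rw [abs_of_nonneg h1, abs_of_nonneg (h1.trans h2)]
  linarith

theorem D_interior_nonempty {t : ℕ} (ht : 0 < t) (i : ℕ) : (interior (D t i)).Nonempty := by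
  have h1 := A_cont
  have h2 := B_cont
  have ht' : (0 : ℝ) < t := by exact_mod_cast ht
  have hi0 : (0 : ℝ) ≤ i := Nat.cast_nonneg i
  have hs : (0 : ℝ) < (2 * i + 1) / (2 * t) := by positivity
  have hs1 : (i : ℝ) / t < (2 * i + 1) / (2 * t) := by
    rw [div_lt_div_iff₀ ht' (by positivity)]; nlinarith
  have hs2 : (2 * (i : ℝ) + 1) / (2 * t) < ((i : ℝ) + 1) / t := by
    rw [div_lt_div_iff₀ (by positivity) ht']; nlinarith
  refine ⟨of (3 / 4 * ((2 * i + 1) / (2 * t))) (1 / 4 * ((2 * i + 1) / (2 * t))), ?_⟩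
  rw [mem_interior]
  refine ⟨{z | 0 < B z ∧ B z < A z ∧ (i : ℝ) / t < A z + B z ∧ A z + B z < ((i : ℝ) + 1) / t}, ?_, ?_, ?_⟩
  · rintro z ⟨k1, k2, k3, k4⟩
    exact ⟨k1.le, k2.le, k3.le, k4.le⟩
  · apply IsOpen.inter (isOpen_lt continuous_const h2)
    apply IsOpen.inter (isOpen_lt h2 h1)
    exact IsOpen.inter (isOpen_lt continuous_const (h1.add h2)) (isOpen_lt (h1.add h2) continuous_const)
  · simp only [mem_ofPred_eq, A_of, B_of]
    refine ⟨by linarith, by linarith, by linarith, by linarith⟩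

theorem D_interior {t i : ℕ} {z : ℂ} (hz : z ∈ interior (D t i)) :
    0 < B z ∧ B z < A z ∧ (i : ℝ) / t < A z + B z ∧ A z + B z < ((i : ℝ) + 1) / t := by
  have A1 : A 1 = 1 := by unfold A; rw [X_one, Y_one]; ring
  have B1 : B 1 = 0 := by unfold B; rw [X_one, Y_one]; ring
  have Az : A ζ = 0 := by unfold A; rw [X_zeta, Y_zeta]; ring
  have Bz : B ζ = 1 := by unfold B; rw [X_zeta, Y_zeta]; ring
  have hm : ∀ (t : ℝ) (v : ℂ), z + (t : ℂ) * v = z + t • v := by
    intro t v; simp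
  obtain ⟨t1, p1, q1⟩ := exists_move hz 1
  obtain ⟨t2, p2, q2⟩ := exists_move hz ((-1 : ℝ) • (1 : ℂ))
  obtain ⟨t3, p3, q3⟩ := exists_move hz ζ
  obtain ⟨t4, p4, q4⟩ := exists_move hz ((-1 : ℝ) • ζ)
  rw [hm] at q1 q2 q3 q4
  unfold D at q1 q2 q3 q4
  simp only [mem_ofPred_eq, A_add, B_add, A_smul, B_smul, A1, B1, Az, Bz] at q1 q2 q3 q4
  refine ⟨by linarith [q4.1], by linarith [q3.2.1], by linarith [q2.2.2.1], by linarith [q1.2.2.2]⟩

theorem disk_image {S : Set ℂ} (g : ℂ ≃ᵢ ℂ) (h : IsDisk S) : IsDisk (g '' S) := by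
  obtain ⟨h1, ⟨e⟩⟩ := h
  exact ⟨g.toHomeomorph.isClosedMap _ h1, ⟨(g.toHomeomorph.image S).symm.trans e⟩⟩

theorem D_disk {t i : ℕ} (ht : 0 < t) (hi : i < t) : IsDisk (D t i) := by
  refine ⟨D_closed t i, ?_⟩
  have hb : Bornology.IsBounded (D t i) := by
    rw [isBounded_iff_forall_norm_le]
    exact ⟨1, fun z hz => D_norm ht hi hz⟩
  obtain ⟨h, -, h2, -⟩ := exists_homeomorph_image_interior_closure_frontier_eq_unitBall
    (D_convex t i) (D_interior_nonempty ht i) hb
  rw [(D_closed t i).closure_eq] at h2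
  exact ⟨(h.image _).trans (Homeomorph.setCongr h2)⟩

/-! ### The tile -/

/-- The lattice vector that moves the `i`-th piece. -/
def lp (i : ℕ) : ℤ × ℤ := (3 * ((i : ℤ) + 1), -((i : ℤ) + 1))

theorem A_lp (i : ℕ) : A (pt (lp i)) = 4 * ((i : ℝ) + 1) := by
  rw [A_pt]; unfold lp; push_cast; ring
theorem B_lp (i : ℕ) : B (pt (lp i)) = (i : ℝ) + 1 := by
  rw [B_pt]; unfold lp; push_cast; ring

/-- Translation by a lattice vector. -/
noncomputable def tr (p : ℤ × ℤ) : ℂ ≃ᵢ ℂ := IsometryEquiv.addRight (pt p)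

theorem tr_apply (p : ℤ × ℤ) (z : ℂ) : tr p z = z + pt p := rfl

/-- A component of the tile. -/
noncomputable def comp (t i : ℕ) (m : Fin 12) : Set ℂ := ((tr (lp i)).trans (actI m)) '' D t i

theorem mem_comp {t i : ℕ} {m : Fin 12} {z : ℂ} : z ∈ comp t i m ↔ ∃ w ∈ D t i, act m (w + pt (lp i)) = z :=
  Iff.rfl

/-- The basic tile. -/
noncomputable def T0 (t : ℕ) : Set ℂ := ⋃ i : Fin t, ⋃ m : Fin 12, comp t i m

/-- The tiling. -/
noncomputable def F (t : ℕ) : Set (Set ℂ) := range (fun p : ℤ × ℤ => tr p '' T0 t)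

theorem pt_add' (p q : ℤ × ℤ) : pt (p + q) = pt p + pt q := by
  apply ext_AB
  · rw [A_add, A_pt, A_pt, A_pt]; simp only [Prod.fst_add, Prod.snd_add]; push_cast; ring
  · rw [B_add, B_pt, B_pt, B_pt]; simp only [Prod.fst_add, Prod.snd_add]; push_cast; ring

theorem pt_sub' (p q : ℤ × ℤ) : pt (p - q) = pt p - pt q := by
  have := pt_add' (p - q) q
  rw [sub_add_cancel] at this
  rw [this]; ring

theorem pt_inj {p q : ℤ × ℤ} (h : pt p = pt q) : p = q := by
  have h1 := congrArg X h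
  have h2 := congrArg Y h
  rw [X_pt, X_pt] at h1
  rw [Y_pt, Y_pt] at h2
  exact Prod.ext (by exact_mod_cast h1) (by exact_mod_cast h2)

/-- The interiors of the cells of the tiling by chamber pieces are disjoint. -/
theorem cell_unique {t i j : ℕ} (ht : 0 < t) (hi : i < t) (hj : j < t) {m n : Fin 12} {p q : ℤ × ℤ} {w w' : ℂ}
    (hw : w ∈ interior (D t i)) (hw' : w' ∈ interior (D t j)) (h : act m w + pt p = act n w' + pt q) :
    i = j ∧ m = n ∧ p = q := by
  obtain ⟨a1, a2, a3, a4⟩ := D_interior hw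
  obtain ⟨b1, b2, b3, b4⟩ := D_interior hw'
  have ht' : (0 : ℝ) < t := by exact_mod_cast ht
  have a5 : ((i : ℝ) + 1) / t ≤ 1 := by
    rw [div_le_one ht']; exact_mod_cast hi
  have b5 : ((j : ℝ) + 1) / t ≤ 1 := by
    rw [div_le_one ht']; exact_mod_cast hj
  have ha := hex_inv m (a := A w) (b := B w) (r := 1) (abs_lt.2 ⟨by linarith, by linarith⟩)
    (abs_lt.2 ⟨by linarith, by linarith⟩) (abs_lt.2 ⟨by linarith, by linarith⟩)
  have hb := hex_inv n (a := A w') (b := B w') (r := 1) (abs_lt.2 ⟨by linarith, by linarith⟩)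
    (abs_lt.2 ⟨by linarith, by linarith⟩) (abs_lt.2 ⟨by linarith, by linarith⟩)
  rw [← A_act, ← B_act, abs_lt, abs_lt, abs_lt] at ha hb
  have eA := congrArg A h
  have eB := congrArg B h
  rw [A_add, A_add, A_pt, A_pt] at eA
  rw [B_add, B_add, B_pt, B_pt] at eB
  obtain ⟨⟨c1, c2⟩, ⟨c3, c4⟩, c5, c6⟩ := ha
  obtain ⟨⟨d1, d2⟩, ⟨d3, d4⟩, d5, d6⟩ := hb
  have k1 : (((p.1 - p.2) - (q.1 - q.2) : ℤ) : ℝ) < 2 := by push_cast at *; linarith
  have k2 : (-2 : ℝ) < (((p.1 - p.2) - (q.1 - q.2) : ℤ) : ℝ) := by push_cast at *; linarith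
  have k3 : (((p.1 + 2 * p.2) - (q.1 + 2 * q.2) : ℤ) : ℝ) < 2 := by push_cast at *; linarith
  have k4 : (-2 : ℝ) < (((p.1 + 2 * p.2) - (q.1 + 2 * q.2) : ℤ) : ℝ) := by push_cast at *; linarith
  have k5 : (((p.1 - p.2) - (q.1 - q.2) + ((p.1 + 2 * p.2) - (q.1 + 2 * q.2)) : ℤ) : ℝ) < 2 := by
    push_cast at *; linarith
  have k6 : (-2 : ℝ) < (((p.1 - p.2) - (q.1 - q.2) + ((p.1 + 2 * p.2) - (q.1 + 2 * q.2)) : ℤ) : ℝ) := by
    push_cast at *; linarith
  have l1 : (p.1 - p.2) - (q.1 - q.2) < 2 := by exact_mod_cast k1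
  have l2 : -2 < (p.1 - p.2) - (q.1 - q.2) := by exact_mod_cast k2
  have l3 : (p.1 + 2 * p.2) - (q.1 + 2 * q.2) < 2 := by exact_mod_cast k3
  have l4 : -2 < (p.1 + 2 * p.2) - (q.1 + 2 * q.2) := by exact_mod_cast k4
  have l5 : (p.1 - p.2) - (q.1 - q.2) + ((p.1 + 2 * p.2) - (q.1 + 2 * q.2)) < 2 := by exact_mod_cast k5
  have l6 : -2 < (p.1 - p.2) - (q.1 - q.2) + ((p.1 + 2 * p.2) - (q.1 + 2 * q.2)) := by exact_mod_cast k6
  have hpq : p = q := by apply Prod.ext <;> omega
  subst hpq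
  have h2 : act m w = act n w' := add_right_cancel h
  obtain ⟨hmn, hww⟩ := cone_unique a1 a2 b1 b2 h2
  refine ⟨?_, hmn, rfl⟩
  subst hww
  have g1 : (i : ℝ) / t < ((j : ℝ) + 1) / t := by linarith
  have g2 : (j : ℝ) / t < ((i : ℝ) + 1) / t := by linarith
  rw [div_lt_div_iff_of_pos_right ht'] at g1 g2
  have g3 : i < j + 1 := by exact_mod_cast g1
  have g4 : j < i + 1 := by exact_mod_cast g2
  omega

theorem interior_comp {t i : ℕ} {m : Fin 12} {q : ℤ × ℤ} {z : ℂ} (hz : z ∈ interior (tr q '' comp t i m)) :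
    ∃ w ∈ interior (D t i), ∃ r, act m (pt (lp i)) = pt r ∧ z = act m w + pt (r + q) := by
  have h1 : tr q '' comp t i m = (((tr (lp i)).trans (actI m)).trans (tr q)) '' D t i := by
    unfold comp; rw [image_image]; rfl
  rw [h1] at hz
  have h2 : interior ((((tr (lp i)).trans (actI m)).trans (tr q)) '' D t i) =
      (((tr (lp i)).trans (actI m)).trans (tr q)) '' interior (D t i) :=
    ((((tr (lp i)).trans (actI m)).trans (tr q)).toHomeomorph.image_interior _).symm
  rw [h2] at hz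
  obtain ⟨w, hw, rfl⟩ := hz
  obtain ⟨r, hr⟩ := act_pt m (lp i)
  refine ⟨w, hw, r, hr, ?_⟩
  change act m (w + pt (lp i)) + pt q = act m w + pt (r + q)
  rw [act_add, hr, pt_add']; ring

theorem comp_disjoint {t i j : ℕ} (ht : 0 < t) (hi : i < t) (hj : j < t) {m n : Fin 12}
    (h : (i, m) ≠ (j, n)) : Disjoint (comp t i m) (comp t j n) := by
  rw [disjoint_left]
  rintro z hz hz'
  obtain ⟨w, hw, rfl⟩ := mem_comp.1 hz
  obtain ⟨w', hw', he⟩ := mem_comp.1 hz'
  have hi0 : (0 : ℝ) ≤ i := Nat.cast_nonneg i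
  have hj0 : (0 : ℝ) ≤ j := Nat.cast_nonneg j
  have ht' : (0 : ℝ) < t := by exact_mod_cast ht
  have a5 : ((i : ℝ) + 1) / t ≤ 1 := by
    rw [div_le_one ht']; exact_mod_cast hi
  have b5 : ((j : ℝ) + 1) / t ≤ 1 := by
    rw [div_le_one ht']; exact_mod_cast hj
  obtain ⟨a1, a2, a3, a4⟩ := hw
  obtain ⟨b1, b2, b3, b4⟩ := hw'
  obtain ⟨h1, h2⟩ := cone_unique (m := m) (n := n) (z := w + pt (lp i)) (w := w' + pt (lp j))
    (by rw [B_add, B_lp]; linarith) (by rw [B_add, A_add, A_lp, B_lp]; linarith)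
    (by rw [B_add, B_lp]; linarith) (by rw [B_add, A_add, A_lp, B_lp]; linarith) he.symm
  apply h
  have h3 := congrArg B h2
  rw [B_add, B_add, B_lp, B_lp] at h3
  have g1 : (i : ℝ) < j + 1 := by linarith
  have g2 : (j : ℝ) < i + 1 := by linarith
  have g3 : i < j + 1 := by exact_mod_cast g1
  have g4 : j < i + 1 := by exact_mod_cast g2
  rw [h1, (by omega : i = j)]

theorem comp_disk {t i : ℕ} (ht : 0 < t) (hi : i < t) (m : Fin 12) : IsDisk (comp t i m) :=
  disk_image _ (D_disk ht hi)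

/-- In a finite disjoint union of closed sets an interior point is interior to one of the sets. -/
theorem interior_iUnion {ι : Type} [Finite ι] (C : ι → Set ℂ) (hc : ∀ i, IsClosed (C i))
    (hd : ∀ i j, i ≠ j → Disjoint (C i) (C j)) {z : ℂ} (hz : z ∈ interior (⋃ i, C i)) : ∃ i, z ∈ interior (C i) := by
  obtain ⟨i, hi⟩ := mem_iUnion.1 (interior_subset hz)
  refine ⟨i, ?_⟩
  have ho : IsOpen (interior (⋃ i, C i) ∩ (⋃ j : {j // j ≠ i}, C j)ᶜ) :=
    isOpen_interior.inter
      (isClosed_iUnion_of_finite (s := fun j : {j // j ≠ i} => C j) (fun j => hc j)).isOpen_compl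
  rw [mem_interior]
  refine ⟨_, ?_, ho, hz, ?_⟩
  · rintro w ⟨h1, h2⟩
    obtain ⟨j, hj⟩ := mem_iUnion.1 (interior_subset h1)
    by_cases hji : j = i
    · rw [hji] at hj; exact hj
    · exact absurd (mem_iUnion.2 ⟨⟨j, hji⟩, hj⟩) h2
  · intro h
    obtain ⟨⟨j, hji⟩, hj⟩ := mem_iUnion.1 h
    exact disjoint_left.1 (hd j i hji) hj hi

/-- The components of a translate of the basic tile. -/
noncomputable def C (t : ℕ) (q : ℤ × ℤ) (x : Fin t × Fin 12) : Set ℂ := tr q '' comp t x.1 x.2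

theorem tile_eq (t : ℕ) (q : ℤ × ℤ) : tr q '' T0 t = ⋃ x, C t q x := by
  unfold T0 C
  rw [iUnion_prod', image_iUnion]
  apply iUnion_congr
  intro i
  rw [image_iUnion]

theorem C_disk {t : ℕ} (ht : 0 < t) (q : ℤ × ℤ) (x : Fin t × Fin 12) : IsDisk (C t q x) :=
  disk_image _ (comp_disk ht x.1.isLt x.2)

theorem C_disjoint {t : ℕ} (ht : 0 < t) (q : ℤ × ℤ) (x y : Fin t × Fin 12) (h : x ≠ y) :
    Disjoint (C t q x) (C t q y) := by
  have h1 : Disjoint (comp t x.1 x.2) (comp t y.1 y.2) := by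
    apply comp_disjoint ht x.1.isLt y.1.isLt
    intro he
    rw [Prod.mk.injEq] at he
    exact h (Prod.ext (Fin.ext he.1) he.2)
  exact (disjoint_image_iff (tr q).injective).2 h1

theorem tile_closed {t : ℕ} (ht : 0 < t) (q : ℤ × ℤ) : IsClosed (tr q '' T0 t) := by
  rw [tile_eq]
  exact isClosed_iUnion_of_finite (fun x => (C_disk ht q x).1)

theorem F_tiling {t : ℕ} (ht : 0 < t) : IsTiling (F t) where
  countable := countable_range _
  closed := by
    rintro _ ⟨q, rfl⟩
    exact tile_closed ht q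
  cover := by
    rw [eq_univ_iff_forall]
    intro z
    have hz : z + ζ ∈ ⋃ p, tile p := by rw [tiles_cover]; trivial
    obtain ⟨p, hp⟩ := mem_iUnion.1 hz
    change z + ζ - (pt p + ζ) ∈ hexagon at hp
    rw [add_sub_add_right_eq_sub, hexagon_eq] at hp
    obtain ⟨⟨h1, h2⟩, ⟨h3, h4⟩, h5, h6⟩ := hp
    obtain ⟨m, hm1, hm2⟩ := cone_cover (A (z - pt p)) (B (z - pt p))
    -- the hexagonal norm of the image is at most one
    have key : ∀ r : ℝ, 1 < r → A (act m (z - pt p)) + B (act m (z - pt p)) < r := by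
      intro r hr
      have := hex_inv m (a := A (z - pt p)) (b := B (z - pt p)) (r := r)
        (abs_lt.2 ⟨by unfold A; linarith, by unfold A; linarith⟩)
        (abs_lt.2 ⟨by unfold B; linarith, by unfold B; linarith⟩)
        (abs_lt.2 ⟨by unfold A B; linarith, by unfold A B; linarith⟩)
      rw [← A_act, ← B_act] at this
      exact (abs_lt.1 this.2.2).2
    have hle : A (act m (z - pt p)) + B (act m (z - pt p)) ≤ 1 := by
      by_contra hcon
      push Not at hcon
      exact lt_irrefl _ (key _ hcon)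
    rw [← B_act] at hm1 hm2
    rw [← A_act] at hm2
    have ht' : (0 : ℝ) < t := by exact_mod_cast ht
    -- the index of the piece
    have hs0 : 0 ≤ A (act m (z - pt p)) + B (act m (z - pt p)) := by linarith
    obtain ⟨i, hi, hi1, hi2⟩ : ∃ i : ℕ, i < t ∧
        (i : ℝ) / t ≤ A (act m (z - pt p)) + B (act m (z - pt p)) ∧
        A (act m (z - pt p)) + B (act m (z - pt p)) ≤ ((i : ℝ) + 1) / t := by
      generalize A (act m (z - pt p)) + B (act m (z - pt p)) = s at hle hs0
      rcases lt_or_eq_of_le hle with h | h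
      · refine ⟨⌊s * t⌋₊, ?_, ?_, ?_⟩
        · rw [Nat.floor_lt (by positivity)]
          nlinarith
        · rw [div_le_iff₀ ht']
          exact Nat.floor_le (by positivity)
        · rw [le_div_iff₀ ht']
          exact (Nat.lt_floor_add_one _).le
      · refine ⟨t - 1, by omega, ?_, ?_⟩
        · rw [h, div_le_iff₀ ht']
          push_cast [Nat.cast_sub (show 1 ≤ t from ht)]
          linarith
        · rw [h, le_div_iff₀ ht']
          push_cast [Nat.cast_sub (show 1 ≤ t from ht)]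
          linarith
    obtain ⟨r, hr⟩ := act_pt (inv m) (lp i)
    refine ⟨_, ⟨p - r, rfl⟩, ?_⟩
    dsimp only
    rw [tile_eq]
    refine mem_iUnion.2 ⟨(⟨i, hi⟩, inv m), ?_⟩
    refine ⟨act (inv m) (act m (z - pt p) + pt (lp i)), ?_, ?_⟩
    · exact mem_comp.2 ⟨act m (z - pt p), ⟨hm1, hm2, hi1, hi2⟩, rfl⟩
    · rw [tr_apply, act_add, act_inv, hr, pt_sub']
      ring
  disjoint := by
    rintro _ ⟨p, rfl⟩ _ ⟨q, rfl⟩ hne
    rw [disjoint_left]
    intro z hz hz'
    dsimp only at hz hz'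
    rw [tile_eq] at hz hz'
    obtain ⟨⟨i, m⟩, hx⟩ := interior_iUnion _ (fun x => (C_disk ht p x).1) (C_disjoint ht p) hz
    obtain ⟨⟨j, n⟩, hy⟩ := interior_iUnion _ (fun x => (C_disk ht q x).1) (C_disjoint ht q) hz'
    obtain ⟨w, hw, r, hr, e1⟩ := interior_comp hx
    obtain ⟨w', hw', r', hr', e2⟩ := interior_comp hy
    obtain ⟨h1, h2, h3⟩ := cell_unique ht i.isLt j.isLt hw hw' (e1.symm.trans e2)
    have h4 : i = j := Fin.ext h1
    subst h4 h2
    have h5 : r = r' := pt_inj (hr.symm.trans hr')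
    subst h5
    exact hne (by rw [add_left_cancel h3])

/-! ### Symmetries -/

theorem symmetry_of_maps {F : Set (Set ℂ)} (g g' : ℂ ≃ᵢ ℂ) (h : ∀ z, g (g' z) = z)
    (hg : ∀ T ∈ F, g '' T ∈ F) (hg' : ∀ T ∈ F, g' '' T ∈ F) : IsSymmetry F g := by
  apply Subset.antisymm
  · rintro _ ⟨T, hT, rfl⟩
    exact hg T hT
  · intro T hT
    refine ⟨g' '' T, hg' T hT, ?_⟩
    change g '' (g' '' T) = T
    rw [image_image]
    simp only [h, image_id']

theorem act_T0 (t : ℕ) (m : Fin 12) : actI m '' T0 t = T0 t := by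
  have key : ∀ m, actI m '' T0 t ⊆ T0 t := by
    rintro m _ ⟨z, hz, rfl⟩
    unfold T0 at hz ⊢
    obtain ⟨i, hz⟩ := mem_iUnion.1 hz
    obtain ⟨n, hz⟩ := mem_iUnion.1 hz
    obtain ⟨w, hw, rfl⟩ := mem_comp.1 hz
    obtain ⟨k, hk⟩ := act_comp m n
    refine mem_iUnion.2 ⟨i, mem_iUnion.2 ⟨k, mem_comp.2 ⟨w, hw, ?_⟩⟩⟩
    rw [actI_apply, hk]
  apply Subset.antisymm (key m)
  intro z hz
  refine ⟨act (inv m) z, key (inv m) ⟨z, hz, rfl⟩, ?_⟩
  rw [actI_apply, act_inv']

/-- The element of the point group at the lattice point `q`. -/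
noncomputable def rot (m : Fin 12) (q : ℤ × ℤ) : ℂ ≃ᵢ ℂ := ((tr q).symm.trans (actI m)).trans (tr q)

theorem tr_symm_apply (q : ℤ × ℤ) (z : ℂ) : (tr q).symm z = z - pt q := by
  rw [IsometryEquiv.symm_apply_eq, tr_apply]; ring

theorem rot_apply (m : Fin 12) (q : ℤ × ℤ) (z : ℂ) : rot m q z = act m (z - pt q) + pt q := by
  change act m ((tr q).symm z) + pt q = _
  rw [tr_symm_apply]

theorem rot_tile (t : ℕ) (m : Fin 12) (q p : ℤ × ℤ) : ∃ r, rot m q '' (tr p '' T0 t) = tr r '' T0 t := by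
  obtain ⟨r, hr⟩ := act_pt m (p - q)
  refine ⟨r + q, ?_⟩
  have h1 : tr (r + q) '' T0 t = tr (r + q) '' (actI m '' T0 t) := by rw [act_T0]
  rw [h1, image_image, image_image]
  apply image_congr
  intro x _
  rw [rot_apply, tr_apply, tr_apply, actI_apply, pt_add', ← hr, pt_sub', ← add_assoc, ← act_add]
  congr 2
  ring

theorem rot_self (t : ℕ) (m : Fin 12) (q : ℤ × ℤ) : rot m q '' (tr q '' T0 t) = tr q '' T0 t := by
  have h1 : tr q '' T0 t = tr q '' (actI m '' T0 t) := by rw [act_T0]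
  refine Eq.trans ?_ h1.symm
  rw [image_image, image_image]
  apply image_congr
  intro x _
  rw [rot_apply, tr_apply, tr_apply, actI_apply, add_sub_cancel_right]

theorem rot_inv (m : Fin 12) (q : ℤ × ℤ) (z : ℂ) : rot m q (rot (inv m) q z) = z := by
  rw [rot_apply, rot_apply, add_sub_cancel_right, act_inv', sub_add_cancel]

theorem rot_symmetry (t : ℕ) (m : Fin 12) (q : ℤ × ℤ) : IsSymmetry (F t) (rot m q) := by
  apply symmetry_of_maps (rot m q) (rot (inv m) q) (rot_inv m q)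
  · rintro _ ⟨p, rfl⟩
    obtain ⟨r, hr⟩ := rot_tile t m q p
    exact ⟨r, hr.symm⟩
  · rintro _ ⟨p, rfl⟩
    obtain ⟨r, hr⟩ := rot_tile t (inv m) q p
    exact ⟨r, hr.symm⟩

theorem tr_tile (t : ℕ) (q p : ℤ × ℤ) : tr q '' (tr p '' T0 t) = tr (p + q) '' T0 t := by
  rw [image_image]
  apply image_congr
  intro x _
  rw [tr_apply, tr_apply, tr_apply, pt_add']; ring

theorem tr_symmetry (t : ℕ) (q : ℤ × ℤ) : IsSymmetry (F t) (tr q) := by
  apply symmetry_of_maps (tr q) (tr (-q))
  · intro z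
    rw [tr_apply, tr_apply]
    have := pt_add' (-q) q
    rw [neg_add_cancel] at this
    have h0 : pt (0 : ℤ × ℤ) = 0 := by unfold pt; simp
    rw [h0] at this
    rw [add_assoc, ← this, add_zero]
  · rintro _ ⟨p, rfl⟩
    exact ⟨p + q, (tr_tile t q p).symm⟩
  · rintro _ ⟨p, rfl⟩
    exact ⟨p + -q, (tr_tile t (-q) p).symm⟩

theorem F_isohedral (t : ℕ) : Isohedral (F t) := by
  rintro _ ⟨p, rfl⟩ _ ⟨q, rfl⟩
  refine ⟨tr (q - p), tr_symmetry t _, ?_⟩
  dsimp only
  rw [tr_tile, add_sub_cancel]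

/-! ### Classes of components -/

/-- A bounded nonempty set has at most one centre of symmetry; it is fixed by all isometries of the set. -/
theorem center_fix {S : Set ℂ} (hb : Bornology.IsBounded S) (hne : S.Nonempty) {c : ℂ}
    (hc : ∀ z ∈ S, 2 * c - z ∈ S) (g : ℂ ≃ᵢ ℂ) (hg : g '' S = S) : g c = c := by
  have hmid : ∀ z, g (2 * c - z) = 2 * g c - g z := by
    intro z
    have h1 := IsometryEquiv.map_midpoint g z (2 * c - z)
    have h2 : midpoint ℝ z (2 * c - z) = c := by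
      rw [midpoint_eq_smul_add, add_sub_cancel, ← smul_mul_assoc]
      norm_num
    rw [h2, midpoint_eq_smul_add, Complex.real_smul, invOf_eq_inv] at h1
    push_cast at h1
    linear_combination (-2 : ℂ) * h1
  have hstep : ∀ y ∈ S, y + 2 * (g c - c) ∈ S := by
    intro y hy
    have h1 := hc y hy
    rw [← hg] at h1
    obtain ⟨w, hw, hwe⟩ := h1
    have h2 : g (2 * c - w) ∈ S := by
      rw [← hg]; exact ⟨_, hc w hw, rfl⟩
    rw [hmid, hwe] at h2
    have : 2 * g c - (2 * c - y) = y + 2 * (g c - c) := by ring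
    rwa [this] at h2
  obtain ⟨y, hy⟩ := hne
  have hn : ∀ n : ℕ, y + (n : ℂ) * (2 * (g c - c)) ∈ S := by
    intro n
    induction n with
    | zero => simpa using hy
    | succ n ih =>
      have := hstep _ ih
      push_cast
      have e : y + (n : ℂ) * (2 * (g c - c)) + 2 * (g c - c) = y + ((n : ℂ) + 1) * (2 * (g c - c)) := by ring
      rwa [e] at this
  obtain ⟨R, hR⟩ := hb.exists_norm_le
  by_contra hne
  have hv : 0 < ‖2 * (g c - c)‖ := by
    rw [norm_pos_iff]
    intro h0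
    apply hne
    have : g c - c = 0 := by
      rcases mul_eq_zero.1 h0 with h | h
      · norm_num at h
      · exact h
    exact sub_eq_zero.1 this
  obtain ⟨n, hn'⟩ := exists_nat_gt ((R + ‖y‖) / ‖2 * (g c - c)‖)
  rw [div_lt_iff₀ hv] at hn'
  have h1 := hR _ (hn n)
  have h2 : ‖(n : ℂ) * (2 * (g c - c))‖ ≤ ‖y + (n : ℂ) * (2 * (g c - c))‖ + ‖y‖ := by
    have := norm_sub_le (y + (n : ℂ) * (2 * (g c - c))) y
    rwa [add_sub_cancel_left] at this
  rw [norm_mul, Complex.norm_natCast] at h2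
  linarith

theorem act_three (z : ℂ) : act 3 z = -z := by
  apply ext_AB
  · rw [A_act]
    have : A (-z) = -A z := by unfold A; rw [X_neg, Y_neg]; ring
    rw [this]; simp [ma, mb]
  · rw [B_act]
    have : B (-z) = -B z := by unfold B; rw [X_neg, Y_neg]; ring
    rw [this]; simp [mc, md]

theorem tile_center (t : ℕ) (q : ℤ × ℤ) : ∀ z ∈ tr q '' T0 t, 2 * pt q - z ∈ tr q '' T0 t := by
  intro z hz
  have h := rot_self t 3 q
  rw [← h]
  refine ⟨z, hz, ?_⟩
  rw [rot_apply, act_three]; ring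

theorem D_mem {t i : ℕ} (ht : 0 < t) : of ((i : ℝ) / t) 0 ∈ D t i := by
  have ht' : (0 : ℝ) < t := by exact_mod_cast ht
  unfold D
  simp only [mem_ofPred_eq, A_of, B_of]
  refine ⟨le_rfl, by positivity, by linarith, ?_⟩
  rw [add_zero, div_le_div_iff_of_pos_right ht']
  linarith

theorem pt_lp (i : ℕ) : pt (lp i) = ((i : ℝ) + 1) • (4 + ζ) := by
  unfold pt lp
  simp only [Complex.real_smul]
  push_cast
  ring

theorem norm_c0 : 3 ≤ ‖(4 : ℂ) + ζ‖ := by
  have h := norm_sub_le (4 + ζ) ζ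
  rw [add_sub_cancel_right, zeta_norm] at h
  have : ‖(4 : ℂ)‖ = 4 := by norm_num
  linarith

/-- The components of different classes lie at different distances from the centre. -/
theorem norm_ne {t i j : ℕ} (ht : 0 < t) (hi : i < t) (hj : j < t) {w w' : ℂ} (hw : w ∈ D t i)
    (hw' : w' ∈ D t j) (h : i < j) : ‖w + pt (lp i)‖ < ‖w' + pt (lp j)‖ := by
  have h1 := D_norm ht hi hw
  have h2 := D_norm ht hj hw'
  have h3 := norm_add_le w (pt (lp i))
  have h4 := norm_sub_le (w' + pt (lp j)) w'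
  rw [add_sub_cancel_left] at h4
  rw [pt_lp, norm_smul, Real.norm_of_nonneg (by positivity)] at h3 h4
  have h5 := norm_c0
  have h6 : (i : ℝ) + 1 ≤ j := by exact_mod_cast h
  rw [pt_lp i, pt_lp j]
  nlinarith

theorem classes {t : ℕ} (ht : 0 < t) (q : ℤ × ℤ) (x y : Fin t × Fin 12) :
    x.1 = y.1 ↔ Equivalent (F t) (tr q '' T0 t) (C t q x) (C t q y) := by
  obtain ⟨i, m⟩ := x
  obtain ⟨j, n⟩ := y
  dsimp only
  constructor
  · rintro rfl
    obtain ⟨k, hk⟩ := act_comp n (inv m)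
    refine ⟨rot k q, rot_symmetry t k q, rot_self t k q, ?_⟩
    unfold C comp
    dsimp only
    rw [image_image, image_image, image_image]
    apply image_congr
    intro w _
    change rot k q (act m (w + pt (lp i)) + pt q) = act n (w + pt (lp i)) + pt q
    rw [rot_apply, add_sub_cancel_right, ← hk, act_inv]
  · rintro ⟨g, -, hg, hC⟩
    have hb : Bornology.IsBounded (tr q '' T0 t) := by
      rw [tile_eq, Bornology.isBounded_iUnion]
      intro x
      have hb0 : Bornology.IsBounded (D t x.1) := by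
        rw [isBounded_iff_forall_norm_le]
        exact ⟨1, fun z hz => D_norm ht x.1.isLt hz⟩
      exact (tr q).isometry.lipschitz.isBounded_image
        (((tr (lp x.1)).trans (actI x.2)).isometry.lipschitz.isBounded_image hb0)
    have hwD := D_mem (i := i) ht
    have hz : tr q (act m (of ((i : ℝ) / t) 0 + pt (lp i))) ∈ C t q (i, m) :=
      ⟨_, mem_comp.2 ⟨_, hwD, rfl⟩, rfl⟩
    have hne : (tr q '' T0 t).Nonempty := by
      rw [tile_eq]
      exact ⟨_, mem_iUnion.2 ⟨(i, m), hz⟩⟩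
    have hfix := center_fix hb hne (tile_center t q) g hg
    have hgz : g (tr q (act m (of ((i : ℝ) / t) 0 + pt (lp i)))) ∈ C t q (j, n) := by
      rw [← hC]; exact ⟨_, hz, rfl⟩
    obtain ⟨u, hu, hue⟩ := hgz
    obtain ⟨w', hw', rfl⟩ := mem_comp.1 hu
    have hd : dist (g (tr q (act m (of ((i : ℝ) / t) 0 + pt (lp i))))) (g (pt q)) =
        dist (tr q (act m (of ((i : ℝ) / t) 0 + pt (lp i)))) (pt q) := g.isometry.dist_eq _ _
    rw [hfix, ← hue, dist_eq_norm, dist_eq_norm, tr_apply, tr_apply, add_sub_cancel_right,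
      add_sub_cancel_right, act_norm, act_norm] at hd
    by_contra hij
    have hij' : i.val ≠ j.val := fun h => hij (Fin.ext h)
    rcases Nat.lt_or_gt_of_ne hij' with h | h
    · exact absurd hd (norm_ne ht i.isLt j.isLt hwD hw' h).ne'
    · exact absurd hd (norm_ne ht j.isLt i.isLt hw' hwD h).ne

/-- For every `t ≥ 1` the tiling `F t` is a `t`-class `12t`-component tiling. -/
theorem F_class {t : ℕ} (ht : 0 < t) : IsClassTiling (F t) t (12 * t) := by
  refine ⟨F_tiling ht, F_isohedral t, ?_⟩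
  rintro _ ⟨q, rfl⟩
  have hcard : Fintype.card (Fin (12 * t)) = Fintype.card (Fin t × Fin 12) := by
    rw [Fintype.card_prod, Fintype.card_fin, Fintype.card_fin, Fintype.card_fin, mul_comm]
  let e : Fin (12 * t) ≃ Fin t × Fin 12 := Fintype.equivOfCardEq hcard
  refine ⟨fun j => C t q (e j), ⟨fun j => C_disk ht q _, ?_, ?_⟩, fun j => (e j).1, ?_, ?_⟩
  · intro j l hjl
    exact C_disjoint ht q _ _ (fun h => hjl (e.injective h))
  · exact (tile_eq t q).trans (e.surjective.iUnion_comp (C t q)).symm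
  · intro i
    exact ⟨e.symm (i, 0), by simp⟩
  · intro j l
    exact classes ht q (e j) (e l)

/-- For every positive integer `t` there is a `t`-class `12t`-component tiling of the plane. -/
theorem result : ∀ t : ℕ, 0 < t → ∃ F : Set (Set ℂ), IsClassTiling F t (12 * t) :=
  fun t ht => ⟨F t, F_class ht⟩

end Pool.Agent.Results.MP_2d2d9d_co.AllClasses
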